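import Pool.Agent.L0h32.UX.Stm

/-!
# Project UX: ENU, all sources of one layer
-/

set_option autoImplicit false
set_option linter.all false

namespace Pool.Agent.L0h90.UX

open Relation
open Pool.Agent.L0h32.UX
open Pool.Agent.H630R2.LA (LimAut Sym Cfg Step init initTape WS lrel bitS ix nr Ann keep)

theorem ix_val {h j : ℕ} (hj : j < 2 ^ h) : (ix h j).val = j := Nat.mod_eq_of_lt hj

section defs

variable {A : Type} (h : ℕ) (rel : A → Fin (2 ^ h) → Fin (2 ^ h) → Bool) (p0 : Fin (2 ^ h))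
  (facc : Fin (2 ^ h) → Bool) (K : ℕ) (W : ℕ → ℕ → Fin (2 ^ h) → Fin (2 ^ h) → ℕ) (w : List A)

theorem pw_iff (β i l : ℕ) : ∀ q : Fin (2 ^ h),
    nr h rel p0 w (β + l) q ↔ ∃ v, Pw h rel p0 W w β i l q v := by
  induction l with
  | zero =>
    intro q
    constructor
    · intro hq
      exact ⟨0, hq, rfl⟩
    · rintro ⟨v, hq, _⟩
      exact hq
  | succ l ih =>
    intro q
    constructor
    · rintro ⟨p, hp, a, ha, hr⟩
      obtain ⟨u, hu⟩ := (ih p).1 hp
      exact ⟨_, p, u, hu, ⟨a, ha, hr⟩, rfl⟩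
    · rintro ⟨v, p, u, hu, ⟨a, ha, hr⟩, _⟩
      exact ⟨p, (ih p).2 ⟨u, hu⟩, a, ha, hr⟩

theorem dm_pw (β i l : ℕ) (q : Fin (2 ^ h)) (hq : nr h rel p0 w (β + l) q) :
    Pw h rel p0 W w β i l q (Dm h rel p0 W w β i l q) :=
  Nat.sInf_mem ((pw_iff h rel p0 W w β i l q).1 hq)

open Classical in
/-- the reachable states below `j` -/
noncomputable def ZZ (β l j : ℕ) : Finset (Fin (2 ^ h)) :=
  Finset.univ.filter fun q : Fin (2 ^ h) => q.val < j ∧ nr h rel p0 w (β + l) q

theorem mem_ZZ (β l j : ℕ) (q : Fin (2 ^ h)) :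
    q ∈ ZZ h rel p0 w β l j ↔ q.val < j ∧ nr h rel p0 w (β + l) q := by
  classical
  unfold ZZ
  rw [Finset.mem_filter]
  exact ⟨fun H => H.2, fun H => ⟨Finset.mem_univ _, H⟩⟩

theorem cnL_eq (β l j : ℕ) : cnL h rel p0 w β l j = (ZZ h rel p0 w β l j).card := rfl

theorem smL_eq (β i l j : ℕ) : smL h rel p0 W w β i l j =
    ∑ q ∈ ZZ h rel p0 w β l j, Dm h rel p0 W w β i l q := rfl

theorem ZZ_zero (β l : ℕ) : ZZ h rel p0 w β l 0 = ∅ := by
  apply Finset.eq_empty_of_forall_notMem
  intro q hq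
  exact absurd ((mem_ZZ h rel p0 w β l 0 q).1 hq).1 (Nat.not_lt_zero _)

theorem ZZ_succ_of (β l j : ℕ) (hj : j < 2 ^ h) (hr : nr h rel p0 w (β + l) (ix h j)) :
    ix h j ∉ ZZ h rel p0 w β l j ∧
      ZZ h rel p0 w β l (j + 1) = insert (ix h j) (ZZ h rel p0 w β l j) := by
  refine ⟨?_, ?_⟩
  · intro hq
    have h1 := ((mem_ZZ h rel p0 w β l j _).1 hq).1
    rw [ix_val hj] at h1
    exact lt_irrefl _ h1
  · ext q
    rw [Finset.mem_insert, mem_ZZ, mem_ZZ]
    constructor
    · rintro ⟨h1, h2⟩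
      rcases Nat.lt_succ_iff_lt_or_eq.1 h1 with h3 | h3
      · exact Or.inr ⟨h3, h2⟩
      · left
        apply Fin.ext
        rw [ix_val hj]
        exact h3
    · rintro (h1 | ⟨h1, h2⟩)
      · rw [h1]
        refine ⟨?_, hr⟩
        rw [ix_val hj]
        exact Nat.lt_succ_self _
      · exact ⟨by omega, h2⟩

theorem ZZ_succ_not (β l j : ℕ) (hj : j < 2 ^ h) (hr : ¬ nr h rel p0 w (β + l) (ix h j)) :
    ZZ h rel p0 w β l (j + 1) = ZZ h rel p0 w β l j := by
  ext q
  rw [mem_ZZ, mem_ZZ]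
  constructor
  · rintro ⟨h1, h2⟩
    rcases Nat.lt_succ_iff_lt_or_eq.1 h1 with h3 | h3
    · exact ⟨h3, h2⟩
    · exfalso
      apply hr
      have : ix h j = q := by
        apply Fin.ext
        rw [ix_val hj]
        exact h3.symm
      rw [this]
      exact h2
  · rintro ⟨h1, h2⟩
    exact ⟨by omega, h2⟩

/-- the memory after `j` sources -/
noncomputable def mj (m : Mem) (β j : ℕ) (r : Rec) : Mem :=
  { m with z := j, d := cnL h rel p0 w β m.l j, e := smL h rel p0 W w β m.i m.l j, r := r }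

theorem hop_run (m m' : Mem) (t : ℕ) (τ : ℕ → Sym (WS A)) (hh : Hop h p0 facc K m m') :
    ReflTransGen (RS h rel p0 facc K W τ (t + 1)) (.hm m, t) (.hm m', t) := by
  have h1 : RS h rel p0 facc K W τ (t + 1) (.hm m, t) (.h1 m', t + 1) :=
    ⟨Nat.le_succ _, true, Tr.hop _ _ _ hh, fun _ => rfl, fun hc => absurd hc (by decide)⟩
  have h2 : RS h rel p0 facc K W τ (t + 1) (.h1 m', t + 1) (.hm m', t) :=
    ⟨le_rfl, false, Tr.back _ _, fun hc => absurd hc (by decide), fun _ => rfl⟩
  exact (ReflTransGen.single h1).tail h2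

end defs

theorem t_ENU (hP : S_PTH) (hY : S_YES) (hH : S_HOP) : S_ENU := by
  classical
  intro A h rel p0 facc K W w t τ ht hτ m hm hl hy hz
  have key : ∀ j : ℕ, j ≤ 2 ^ h → ∃ r : Rec,
      MOK h rel p0 facc K W w t (mj h rel p0 W w m (bt h t m) j r) ∧
      ReflTransGen (RS h rel p0 facc K W τ (t + 1)) (.hm m, t)
        (.hm (mj h rel p0 W w m (bt h t m) j r), t) := by
    intro j
    induction j with
    | zero =>
      intro _
      have h0 : mj h rel p0 W w m (bt h t m) 0 m.r = m := by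
        have hd : m.d = 0 ∧ m.e = 0 := by
          obtain ⟨_, _, _, _, _, _, _, _, _, _, _, _, _, _, _, ⟨Z, g, hZ, hd, he, _⟩, _⟩ := hm
          have hZe : Z = ∅ := by
            apply Finset.eq_empty_of_forall_notMem
            intro q hq
            have := (hZ q hq).1
            rw [hz] at this
            exact absurd this (Nat.not_lt_zero _)
          rw [hd, he, hZe]
          simp
        unfold mj
        rw [cnL_eq, smL_eq, ZZ_zero, Finset.card_empty, Finset.sum_empty]
        obtain ⟨h1, h2⟩ := hd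
        cases m
        simp only at hz h1 h2
        subst hz h1 h2
        rfl
      exact ⟨m.r, by rw [h0]; exact hm, by rw [h0]⟩
    | succ j ih =>
      intro hj
      have hj' : j < 2 ^ h := hj
      obtain ⟨r, hr1, hr2⟩ := ih hj'.le
      by_cases hr : nr h rel p0 w (bt h t m + m.l) (ix h j)
      · have hpw := dm_pw h rel p0 W w (bt h t m) m.i m.l (ix h j) hr
        have hp := hP A h rel p0 facc K W w t τ ht hτ (mj h rel p0 W w m (bt h t m) j r)
          (Dm h rel p0 W w (bt h t m) m.i m.l (ix h j)) hr1 hl hy hj' hpw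
        have hy' := hY A h rel p0 facc K W w t τ ht hτ (mj h rel p0 W w m (bt h t m) j r)
          (Dm h rel p0 W w (bt h t m) m.i m.l (ix h j)) hr1 hl hy hj' hpw
        obtain ⟨hn, hs⟩ := ZZ_succ_of h rel p0 w (bt h t m) m.l j hj' hr
        have hc1 : cnL h rel p0 w (bt h t m) m.l (j + 1) = cnL h rel p0 w (bt h t m) m.l j + 1 := by
          rw [cnL_eq h rel p0 w _ _ (j + 1), hs, Finset.card_insert_of_notMem hn]
          rfl
        have hs1 : smL h rel p0 W w (bt h t m) m.i m.l (j + 1) =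
            smL h rel p0 W w (bt h t m) m.i m.l j + Dm h rel p0 W w (bt h t m) m.i m.l (ix h j) := by
          rw [smL_eq h rel p0 W w _ _ _ (j + 1), hs, Finset.sum_insert hn, add_comm]
          rfl
        have he : ∃ r' : Rec, yes h rel W (mj h rel p0 W w m (bt h t m) j r)
            (Dm h rel p0 W w (bt h t m) m.i m.l (ix h j))
            (τ (bt h t (mj h rel p0 W w m (bt h t m) j r) + (mj h rel p0 W w m (bt h t m) j r).l + 1)) =
            mj h rel p0 W w m (bt h t m) (j + 1) r' := by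
          refine ⟨(yes h rel W (mj h rel p0 W w m (bt h t m) j r)
            (Dm h rel p0 W w (bt h t m) m.i m.l (ix h j))
            (τ (bt h t (mj h rel p0 W w m (bt h t m) j r) + (mj h rel p0 W w m (bt h t m) j r).l + 1))).r, ?_⟩
          unfold mj
          rw [hc1, hs1]
          rfl
        obtain ⟨r', hr'⟩ := he
        rw [hr'] at hp hy'
        exact ⟨r', hy', hr2.trans hp⟩
      · have he : { mj h rel p0 W w m (bt h t m) j r with z := (mj h rel p0 W w m (bt h t m) j r).z + 1 } =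
            mj h rel p0 W w m (bt h t m) (j + 1) r := by
          unfold mj
          rw [cnL_eq h rel p0 w _ _ (j + 1), smL_eq h rel p0 W w _ _ _ (j + 1),
            ZZ_succ_not h rel p0 w _ _ _ hj' hr]
          rfl
        have hh : Hop h p0 facc K (mj h rel p0 W w m (bt h t m) j r)
            (mj h rel p0 W w m (bt h t m) (j + 1) r) := by
          rw [← he]
          exact Hop.no _ hl hy hj'
        exact ⟨r, hH A h rel p0 facc K W w t _ _ hr1 hh, hr2.trans (hop_run h rel p0 facc K W _ _ t τ hh)⟩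
  obtain ⟨r, h1, h2⟩ := key (2 ^ h) le_rfl
  have he : mj h rel p0 W w m (bt h t m) (2 ^ h) r = { m with z := 2 ^ h, d := m.c, e := m.s, r := r } := by
    obtain ⟨_, _, _, _, _, hc, hs, _⟩ := hm
    unfold mj
    rw [← hc, ← hs]
  rw [he] at h1 h2
  exact ⟨r, h1, h2⟩

end Pool.Agent.L0h90.UX
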